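import Pool.Agent.V1160.BohrZ

/-!
# A precompact abelian group which is not a continuous image of a reflexive precompact group
-/

namespace Pool.Agent.Results.MP_0995d8_gt.NotImage

open Pool.Agent.V1160.BohrZ

universe u

/-- There is a Hausdorff precompact abelian group `H` (the integers with the Bohr topology)
such that no reflexive precompact Hausdorff abelian group `G` (in any universe) admits a
continuous surjective homomorphism onto `H`. -/
theorem result : ∃ (H : Type) (_ : CommGroup H) (_ : TopologicalSpace H)
    (_ : IsTopologicalGroup H) (_ : T2Space H), Precompact H ∧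
    ∀ (G : Type u) [CommGroup G] [TopologicalSpace G] [IsTopologicalGroup G] [T2Space G],
      Precompact G → Reflexive G → ¬ ∃ p : G →ₜ* H, Function.Surjective p :=
  ⟨BZ, inferInstance, inferInstance, inferInstance, inferInstance, precompact_BZ,
    fun _ _ _ _ _ hG hR ⟨p, hp⟩ => no_surjection hG hR.continuous p hp⟩

end Pool.Agent.Results.MP_0995d8_gt.NotImage
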